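import Pool.Agent.W611.RO.Defs

/-!
Project RO (helper611): statements (Props) of the parts.  Prove `theorem t_XX : P_XX` (other Props as
hypotheses where the task says so).
-/

set_option autoImplicit false
open scoped ComplexConjugate InnerProductSpace Topology BoundedContinuousFunction
open Filter MeasureTheory NormedSpace

namespace Pool.Agent.W611.RO
open Pool.Agent.H712R5.BO

/-- TR: `tau` is a tracial state -/
def P_TR : Prop := ∀ (G Ω H : Type) [Group G] [Countable G] [MeasurableSpace Ω] [MulAction G Ω]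
  [NormedAddCommGroup H] [InnerProductSpace ℂ H] [CompleteSpace H] (P : Measure Ω)
  [IsProbabilityMeasure P] (b : HilbertBasis G ℂ H) (L : G → unitary (H →L[ℂ] H)), Reg b L →
  (∀ g : G, MeasurePreserving (fun ω : Ω => g • ω) P P) → TrSt (tau P b L)

/-- N2: norms of fields at the basis vectors -/
def P_N2 : Prop := ∀ (G Ω H : Type) [Group G] [Countable G] [MeasurableSpace Ω] [MulAction G Ω]
  [NormedAddCommGroup H] [InnerProductSpace ℂ H] [CompleteSpace H] (P : Measure Ω)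
  [IsProbabilityMeasure P] (b : HilbertBasis G ℂ H) (L : G → unitary (H →L[ℂ] H)), Reg b L →
  (∀ g : G, MeasurePreserving (fun ω : Ω => g • ω) P P) → ∀ A : CF (Ω := Ω) b L,
  (∀ x : H, Measurable (fun ω : Ω => ‖ev b L ω A x‖)) ∧
  ∀ k : G, Integrable (fun ω : Ω => ‖ev b L ω A (b k)‖ ^ 2) P ∧
    ∫ ω, ‖ev b L ω A (b k)‖ ^ 2 ∂P = (n2 (tau P b L) A) ^ 2

/-- ERG: scalar strong limits of covariant fields: zero-one law and constancy -/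
def P_ERG : Prop := ∀ (G Ω H : Type) [Group G] [Countable G] [MeasurableSpace Ω] [MulAction G Ω]
  [NormedAddCommGroup H] [InnerProductSpace ℂ H] [CompleteSpace H] (P : Measure Ω)
  [IsProbabilityMeasure P] (b : HilbertBasis G ℂ H) (L : G → unitary (H →L[ℂ] H)), Reg b L →
  Erg G P → ∀ (B : ℕ → CF (Ω := Ω) b L) (R : ℝ), (∀ i, ‖B i‖ ≤ R) →
  (∀ᵐ ω ∂P, ¬ ∃ c : ℂ, ∀ x : H, Tendsto (fun i => ev b L ω (B i) x) atTop (𝓝 (c • x))) ∨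
  (∃ c : ℂ, ∀ᵐ ω ∂P, ∀ x : H, Tendsto (fun i => ev b L ω (B i) x) atTop (𝓝 (c • x)))

/-- ABS: the abstract theorem (fields over a probability space) -/
def P_ABS : Prop := ∀ (Y : Type) [MeasurableSpace Y] (ν : Measure Y) [IsProbabilityMeasure ν]
  (J : Type) [Countable J] (H : Type) [NormedAddCommGroup H] [InnerProductSpace ℂ H]
  [CompleteSpace H] (A : Type) [CStarAlgebra A] (τ : A →L[ℂ] ℂ)
  (e : Y → (A →⋆ₐ[ℂ] (H →L[ℂ] H))) (w : J → H) (v : H), TrSt τ → ‖v‖ = 1 →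
  (∀ x : H, (∀ r, ⟪x, w r⟫_ℂ = 0) → x = 0) →
  (∀ (a : A) (x : H), Measurable (fun y => ‖e y a x‖)) →
  (∀ a : A, Integrable (fun y => ⟪v, e y a v⟫_ℂ) ν ∧ τ a = ∫ y, ⟪v, e y a v⟫_ℂ ∂ν) →
  (∀ (a : A) (r : J), Integrable (fun y => ‖e y a (w r)‖ ^ 2) ν ∧
    ∫ y, ‖e y a (w r)‖ ^ 2 ∂ν ≤ (n2 τ a) ^ 2) →
  (∀ (B : ℕ → A) (R : ℝ), (∀ i, ‖B i‖ ≤ R) →
    (∀ᵐ y ∂ν, ¬ ∃ c : ℂ, ∀ x : H, Tendsto (fun i => e y (B i) x) atTop (𝓝 (c • x))) ∨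
    (∃ c : ℂ, ∀ᵐ y ∂ν, ∀ x : H, Tendsto (fun i => e y (B i) x) atTop (𝓝 (c • x)))) →
  ∀ T : A, (∀ (k : ℕ) (δ : ℝ), 1 ≤ k → 0 < δ →
    0 ≤ (τ (CFC.log (algebraMap ℝ A δ
      + star ((T - τ T • (1 : A)) ^ k) * (T - τ T • (1 : A)) ^ k))).re) →
  ∀ᵐ y ∂ν, HasHyp (e y T)

/-- M1: first and second derivative of `τ log γ` -/
def P_M1 : Prop := ∀ (A : Type) [CStarAlgebra A] (τ : A →L[ℂ] ℂ), TrSt τ →
  ∀ (γ γ' γ'' : ℝ → A) (δ : ℝ), 0 < δ → (∀ t, HasDerivAt γ (γ' t) t) →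
  (∀ t, HasDerivAt γ' (γ'' t) t) → (∀ t, IsSelfAdjoint (γ t) ∧ spectrum ℝ (γ t) ⊆ Set.Ici δ) →
  ∀ t, HasDerivAt (fun s => (τ (CFC.log (γ s))).re) ((τ (Ring.inverse (γ t) * γ' t)).re) t ∧
    HasDerivAt (fun s => (τ (Ring.inverse (γ s) * γ' s)).re)
      ((τ (Ring.inverse (γ t) * γ'' t)).re
        - (τ (Ring.inverse (γ t) * γ' t * Ring.inverse (γ t) * γ' t)).re) t

/-- M2: positivity of the complex Laplacian -/
def P_M2 : Prop := ∀ (A : Type) [CStarAlgebra A] (τ : A →L[ℂ] ℂ), TrSt τ →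
  ∀ (Q Y Z : A) (δ : ℝ), 0 < δ →
  0 ≤ (τ (Ring.inverse (algebraMap ℝ A δ + star Q * Q) *
        (star Z * Q + (2:ℝ) • (star Y * Y) + star Q * Z))).re
    - (τ (Ring.inverse (algebraMap ℝ A δ + star Q * Q) * (star Y * Q + star Q * Y) *
        Ring.inverse (algebraMap ℝ A δ + star Q * Q) * (star Y * Q + star Q * Y))).re
    + ((τ (Ring.inverse (algebraMap ℝ A δ + star Q * Q) *
        (-(star Z * Q) + (2:ℝ) • (star Y * Y) - star Q * Z))).re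
    - (τ (Ring.inverse (algebraMap ℝ A δ + star Q * Q) *
          (-(Complex.I • (star Y * Q)) + Complex.I • (star Q * Y)) *
        Ring.inverse (algebraMap ℝ A δ + star Q * Q) *
          (-(Complex.I • (star Y * Q)) + Complex.I • (star Q * Y)))).re)

/-- MONO: a rotation invariant `u(w) = τ log (δ + |Ψ(w)|²)`, `Ψ` entire, satisfies `u(0) ≤ u(1)` -/
def P_MONO : Prop := ∀ (A : Type) [CStarAlgebra A] (τ : A →L[ℂ] ℂ), TrSt τ →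
  ∀ Ψ : ℂ → A, Differentiable ℂ Ψ →
  (∀ (δ t : ℝ) (w : ℂ), 0 < δ →
    (τ (CFC.log (algebraMap ℝ A δ + star (Ψ (Complex.exp (t * Complex.I) * w))
      * Ψ (Complex.exp (t * Complex.I) * w)))).re
    = (τ (CFC.log (algebraMap ℝ A δ + star (Ψ w) * Ψ w))).re) →
  ∀ δ : ℝ, 0 < δ → (τ (CFC.log (algebraMap ℝ A δ + star (Ψ 0) * Ψ 0))).re
    ≤ (τ (CFC.log (algebraMap ℝ A δ + star (Ψ 1) * Ψ 1))).re

/-- UNI: weighted permutation unitaries, and bounded weighted permutations -/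
def P_UNI : Prop := ∀ (G H : Type) [NormedAddCommGroup H] [InnerProductSpace ℂ H]
  [CompleteSpace H] (b : HilbertBasis G ℂ H) (σ : Equiv.Perm G) (m : G → ℂ),
  ((∀ k, ‖m k‖ = 1) → ∃ U : unitary (H →L[ℂ] H), ∀ k, (U : H →L[ℂ] H) (b k) = m k • b (σ k)) ∧
  (∀ R : ℝ, 0 ≤ R → (∀ k, ‖m k‖ ≤ R) →
    ∃ X : H →L[ℂ] H, ‖X‖ ≤ R ∧ ∀ k, X (b k) = m k • b (σ k))

/-- WRD: the fields `a · U_g` exist in `CF` -/
def P_WRD : Prop := ∀ (G Ω H : Type) [Group G] [Countable G] [MeasurableSpace Ω] [MulAction G Ω]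
  [NormedAddCommGroup H] [InnerProductSpace ℂ H] [CompleteSpace H] (b : HilbertBasis G ℂ H)
  (L : G → unitary (H →L[ℂ] H)), Reg b L → (∀ h : G, Measurable (fun ω : Ω => h • ω)) →
  ∀ (g : G) (a : Ω → ℂ) (R : ℝ), Measurable a → (∀ ω, ‖a ω‖ ≤ R) →
  ∃ X : CF (Ω := Ω) b L, IsW b g a (fun ω => ev b L ω X)

/-- ROT: the rotation automorphisms -/
def P_ROT : Prop := ∀ (G Ω H : Type) [Group G] [Countable G] [MeasurableSpace Ω] [MulAction G Ω]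
  [NormedAddCommGroup H] [InnerProductSpace ℂ H] [CompleteSpace H] (P : Measure Ω)
  [IsProbabilityMeasure P] (b : HilbertBasis G ℂ H) (L : G → unitary (H →L[ℂ] H)), Reg b L →
  ∀ χ : G → ℤ, (∀ g h, χ (g * h) = χ g + χ h) → ∀ t : ℝ,
  ∃ α : CF (Ω := Ω) b L →⋆ₐ[ℂ] CF (Ω := Ω) b L, (∀ A, tau P b L (α A) = tau P b L A) ∧
    ∀ (g : G) (a : Ω → ℂ) (X : CF (Ω := Ω) b L), IsW b g a (fun ω => ev b L ω X) →
      α X = Complex.exp (t * (χ g : ℂ) * Complex.I) • X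

/-- LEAD: the determinant of the leading term -/
def P_LEAD : Prop := ∀ (G Ω H : Type) [Group G] [Countable G] [MeasurableSpace Ω] [MulAction G Ω]
  [NormedAddCommGroup H] [InnerProductSpace ℂ H] [CompleteSpace H] (P : Measure Ω)
  [IsProbabilityMeasure P] (b : HilbertBasis G ℂ H) (L : G → unitary (H →L[ℂ] H)), Reg b L →
  (∀ g : G, MeasurePreserving (fun ω : Ω => g • ω) P P) →
  ∀ (g : G) (a : Ω → ℂ) (X : CF (Ω := Ω) b L), IsW b g a (fun ω => ev b L ω X) →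
  Measurable a → (∀ᵐ ω ∂P, a ω ≠ 0) → Integrable (fun ω => Real.log ‖a ω‖) P →
  ∀ (k : ℕ) (δ : ℝ), 0 < δ → 2 * k * ∫ ω, Real.log ‖a ω‖ ∂P
    ≤ (tau P b L (CFC.log (algebraMap ℝ (CF (Ω := Ω) b L) δ + star (X ^ k) * X ^ k))).re

/-- DET: the determinant bound -/
def P_DET : Prop := ∀ (G Ω H : Type) [Group G] [Countable G] [MeasurableSpace Ω] [MulAction G Ω]
  [NormedAddCommGroup H] [InnerProductSpace ℂ H] [CompleteSpace H] (P : Measure Ω)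
  [IsProbabilityMeasure P] (b : HilbertBasis G ℂ H) (L : G → unitary (H →L[ℂ] H)), Reg b L →
  (∀ g : G, MeasurePreserving (fun ω : Ω => g • ω) P P) →
  ∀ (χ : G → ℤ), (∀ g h, χ (g * h) = χ g + χ h) → ∀ (F : Finset G) (a : G → Ω → ℂ) (g₀ : G),
  g₀ ∈ F → 0 < χ g₀ → (∀ g ∈ F, g ≠ g₀ → χ g < χ g₀) → ∀ X : G → CF (Ω := Ω) b L,
  (∀ g ∈ F, IsW b g (a g) (fun ω => ev b L ω (X g))) → Measurable (a g₀) →
  (∀ᵐ ω ∂P, a g₀ ω ≠ 0) → Integrable (fun ω => Real.log ‖a g₀ ω‖) P →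
  ∀ (c : ℂ) (k : ℕ) (δ : ℝ), 0 < δ → 2 * k * ∫ ω, Real.log ‖a g₀ ω‖ ∂P
    ≤ (tau P b L (CFC.log (algebraMap ℝ (CF (Ω := Ω) b L) δ
      + star ((∑ g ∈ F, X g - c • (1 : CF (Ω := Ω) b L)) ^ k)
        * (∑ g ∈ F, X g - c • (1 : CF (Ω := Ω) b L)) ^ k))).re

/-- MAINB: the theorem in terms of a Hilbert basis -/
def P_MAINB : Prop := ∀ (G Ω H : Type) [Group G] [Countable G] [MeasurableSpace Ω] [MulAction G Ω]
  [NormedAddCommGroup H] [InnerProductSpace ℂ H] [CompleteSpace H] (P : Measure Ω)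
  [IsProbabilityMeasure P] (b : HilbertBasis G ℂ H), Erg G P →
  ∀ (χ : G → ℤ), (∀ g h, χ (g * h) = χ g + χ h) → ∀ (F : Finset G) (a : G → Ω → ℂ) (g₀ : G) (R : ℝ),
  (∀ g ∈ F, Measurable (a g)) → (∀ g ∈ F, ∀ ω, ‖a g ω‖ ≤ R) →
  g₀ ∈ F → 0 < χ g₀ → (∀ g ∈ F, g ≠ g₀ → χ g < χ g₀) →
  (∀ᵐ ω ∂P, a g₀ ω ≠ 0) → Integrable (fun ω => Real.log ‖a g₀ ω‖) P →
  ∀ T : Ω → (H →L[ℂ] H),
  (∀ (ω : Ω) (k : G), T ω (b k) = ∑ g ∈ F, a g ((g * k⁻¹) • ω) • b (k * g⁻¹)) →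
  ∀ᵐ ω ∂P, HasHyp (T ω)

/-- FIN: the theorem on `ℓ²(G)` -/
def P_FIN : Prop := ∀ (G Ω : Type) [Group G] [Countable G] [MeasurableSpace Ω] [MulAction G Ω]
  (P : Measure Ω) [IsProbabilityMeasure P], Erg G P →
  ∀ (χ : G → ℤ), (∀ g h, χ (g * h) = χ g + χ h) → ∀ (F : Finset G) (a : G → Ω → ℂ) (g₀ : G) (R : ℝ),
  (∀ g ∈ F, Measurable (a g)) → (∀ g ∈ F, ∀ ω, ‖a g ω‖ ≤ R) →
  g₀ ∈ F → 0 < χ g₀ → (∀ g ∈ F, g ≠ g₀ → χ g < χ g₀) →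
  (∀ᵐ ω ∂P, a g₀ ω ≠ 0) → Integrable (fun ω => Real.log ‖a g₀ ω‖) P →
  ∀ T : Ω → (lp (fun _ : G => ℂ) 2 →L[ℂ] lp (fun _ : G => ℂ) 2),
  (∀ (ω : Ω) (f : lp (fun _ : G => ℂ) 2) (i : G),
    (T ω f : G → ℂ) i = ∑ g ∈ F, a g (i⁻¹ • ω) * (f : G → ℂ) (i * g)) →
  ∀ᵐ ω ∂P, HasHyp (T ω)

end Pool.Agent.W611.RO
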