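import Mathlib
import Pool.Agent.H712R5.BO.Defs

/-!
Project RO (helper611): ergodic families of finite-range operators on `ℓ²(G)`.  Definitions.
-/

set_option autoImplicit false
open scoped ComplexConjugate InnerProductSpace Topology BoundedContinuousFunction
open Filter MeasureTheory NormedSpace

namespace Pool.Agent.W611.RO
open Pool.Agent.H712R5.BO

/-- a discrete copy of `Ω` -/
def Dis (Ω : Type) : Type := Ω

instance (Ω : Type) : TopologicalSpace (Dis Ω) := ⊥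
instance (Ω : Type) : DiscreteTopology (Dis Ω) := ⟨rfl⟩

section
variable {G Ω H : Type} [Group G] [Countable G] [MeasurableSpace Ω] [MulAction G Ω]
  [NormedAddCommGroup H] [InnerProductSpace ℂ H] [CompleteSpace H]

/-- the unitary representation `L` permutes the Hilbert basis `b` -/
def Reg (b : HilbertBasis G ℂ H) (L : G → unitary (H →L[ℂ] H)) : Prop :=
  ∀ h k : G, (L h : H →L[ℂ] H) (b k) = b (h * k)

omit [Group G] [MulAction G Ω] in
theorem meas_inner_mul (b : HilbertBasis G ℂ H) (A B : Ω → (H →L[ℂ] H))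
    (hA : ∀ x y : H, Measurable (fun ω => ⟪x, A ω y⟫_ℂ))
    (hB : ∀ x y : H, Measurable (fun ω => ⟪x, B ω y⟫_ℂ)) (x y : H) :
    Measurable (fun ω => ⟪x, (A ω * B ω) y⟫_ℂ) := by
  have h1 : ∀ ω, ⟪x, (A ω * B ω) y⟫_ℂ = ∑' k : G, ⟪x, A ω (b k)⟫_ℂ * ⟪b k, B ω y⟫_ℂ := by
    intro ω
    have h2 : ⟪x, (A ω * B ω) y⟫_ℂ = ⟪star (A ω) x, B ω y⟫_ℂ := by
      rw [ContinuousLinearMap.star_eq_adjoint, ContinuousLinearMap.adjoint_inner_left]
      rfl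
    rw [h2, ← b.tsum_inner_mul_inner]
    refine tsum_congr fun k => ?_
    rw [ContinuousLinearMap.star_eq_adjoint, ContinuousLinearMap.adjoint_inner_left]
  simp_rw [h1]
  exact Measurable.tsum fun k => (hA x (b k)).mul (hB (b k) y)

/-- bounded weakly measurable fields `A : Ω → B(H)` with `A (g ω) = L g (A ω) (L g)⁻¹` -/
noncomputable def CF (b : HilbertBasis G ℂ H) (L : G → unitary (H →L[ℂ] H)) :
    StarSubalgebra ℂ (Dis Ω →ᵇ (H →L[ℂ] H)) where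
  carrier := {A | (∀ x y : H, Measurable (fun ω : Ω => ⟪x, (A : Dis Ω → (H →L[ℂ] H)) ω y⟫_ℂ)) ∧
    ∀ (g : G) (ω : Ω), (A : Dis Ω → (H →L[ℂ] H)) (g • ω : Ω) * (L g : H →L[ℂ] H)
      = (L g : H →L[ℂ] H) * (A : Dis Ω → (H →L[ℂ] H)) ω}
  mul_mem' := by
    intro A B hA hB
    refine ⟨meas_inner_mul b _ _ hA.1 hB.1, fun g ω => ?_⟩
    have h1 := hA.2 g ω
    have h2 := hB.2 g ω
    calc (A : Dis Ω → (H →L[ℂ] H)) (g • ω : Ω) * (B : Dis Ω → (H →L[ℂ] H)) (g • ω : Ω)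
          * (L g : H →L[ℂ] H)
        = (A : Dis Ω → (H →L[ℂ] H)) (g • ω : Ω) * ((B : Dis Ω → (H →L[ℂ] H)) (g • ω : Ω)
          * (L g : H →L[ℂ] H)) := mul_assoc _ _ _
      _ = (A : Dis Ω → (H →L[ℂ] H)) (g • ω : Ω) * (L g : H →L[ℂ] H)
          * (B : Dis Ω → (H →L[ℂ] H)) ω := by rw [h2, mul_assoc]
      _ = (L g : H →L[ℂ] H) * ((A : Dis Ω → (H →L[ℂ] H)) ω * (B : Dis Ω → (H →L[ℂ] H)) ω) := by
          rw [h1, mul_assoc]
  add_mem' := by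
    intro A B hA hB
    refine ⟨fun x y => ?_, fun g ω => ?_⟩
    · have h1 : ∀ ω : Ω, ⟪x, ((A : Dis Ω → (H →L[ℂ] H)) ω + (B : Dis Ω → (H →L[ℂ] H)) ω) y⟫_ℂ
          = ⟪x, (A : Dis Ω → (H →L[ℂ] H)) ω y⟫_ℂ + ⟪x, (B : Dis Ω → (H →L[ℂ] H)) ω y⟫_ℂ := by
        intro ω
        rw [_root_.add_apply, inner_add_right]
      show Measurable (fun ω : Ω =>
        ⟪x, ((A : Dis Ω → (H →L[ℂ] H)) ω + (B : Dis Ω → (H →L[ℂ] H)) ω) y⟫_ℂ)
      simp_rw [h1]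
      exact (hA.1 x y).add (hB.1 x y)
    · have h1 := hA.2 g ω
      have h2 := hB.2 g ω
      show ((A : Dis Ω → (H →L[ℂ] H)) (g • ω : Ω) + (B : Dis Ω → (H →L[ℂ] H)) (g • ω : Ω))
        * (L g : H →L[ℂ] H) = (L g : H →L[ℂ] H) * ((A : Dis Ω → (H →L[ℂ] H)) ω
          + (B : Dis Ω → (H →L[ℂ] H)) ω)
      rw [add_mul, mul_add, h1, h2]
  algebraMap_mem' := by
    intro r
    refine ⟨fun x y => ?_, fun g ω => ?_⟩
    · show Measurable (fun _ : Ω => ⟪x, (algebraMap ℂ (H →L[ℂ] H) r) y⟫_ℂ)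
      exact measurable_const
    · show (algebraMap ℂ (H →L[ℂ] H) r) * (L g : H →L[ℂ] H)
        = (L g : H →L[ℂ] H) * (algebraMap ℂ (H →L[ℂ] H) r)
      exact Algebra.commutes _ _
  star_mem' := by
    intro A hA
    refine ⟨fun x y => ?_, fun g ω => ?_⟩
    · have h1 : ∀ ω : Ω, ⟪x, star ((A : Dis Ω → (H →L[ℂ] H)) ω) y⟫_ℂ
          = conj ⟪y, (A : Dis Ω → (H →L[ℂ] H)) ω x⟫_ℂ := by
        intro ω
        rw [ContinuousLinearMap.star_eq_adjoint, ContinuousLinearMap.adjoint_inner_right,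
          inner_conj_symm]
      show Measurable (fun ω : Ω => ⟪x, star ((A : Dis Ω → (H →L[ℂ] H)) ω) y⟫_ℂ)
      simp_rw [h1]
      exact (Complex.continuous_conj.measurable).comp (hA.1 y x)
    · have h1 := congrArg star (hA.2 g ω)
      rw [star_mul, star_mul] at h1
      have e1 : (L g : H →L[ℂ] H) * star (L g : H →L[ℂ] H) = 1 := (Unitary.mem_iff.mp (L g).2).2
      have e2 : star (L g : H →L[ℂ] H) * (L g : H →L[ℂ] H) = 1 := (Unitary.mem_iff.mp (L g).2).1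
      show star ((A : Dis Ω → (H →L[ℂ] H)) (g • ω : Ω)) * (L g : H →L[ℂ] H)
        = (L g : H →L[ℂ] H) * star ((A : Dis Ω → (H →L[ℂ] H)) ω)
      calc star ((A : Dis Ω → (H →L[ℂ] H)) (g • ω : Ω)) * (L g : H →L[ℂ] H)
          = (L g : H →L[ℂ] H) * (star (L g : H →L[ℂ] H)
              * star ((A : Dis Ω → (H →L[ℂ] H)) (g • ω : Ω))) * (L g : H →L[ℂ] H) := by
            rw [← mul_assoc, e1, one_mul]
        _ = (L g : H →L[ℂ] H) * (star ((A : Dis Ω → (H →L[ℂ] H)) ω)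
              * star (L g : H →L[ℂ] H)) * (L g : H →L[ℂ] H) := by rw [h1]
        _ = (L g : H →L[ℂ] H) * star ((A : Dis Ω → (H →L[ℂ] H)) ω) := by
            rw [mul_assoc, mul_assoc, e2, mul_one]

theorem mem_CF (b : HilbertBasis G ℂ H) (L : G → unitary (H →L[ℂ] H))
    (A : Dis Ω →ᵇ (H →L[ℂ] H)) : A ∈ CF (Ω := Ω) b L ↔
    (∀ x y : H, Measurable (fun ω : Ω => ⟪x, (A : Dis Ω → (H →L[ℂ] H)) ω y⟫_ℂ)) ∧
    ∀ (g : G) (ω : Ω), (A : Dis Ω → (H →L[ℂ] H)) (g • ω : Ω) * (L g : H →L[ℂ] H)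
      = (L g : H →L[ℂ] H) * (A : Dis Ω → (H →L[ℂ] H)) ω := Iff.rfl

instance isClosed_CF (b : HilbertBasis G ℂ H) (L : G → unitary (H →L[ℂ] H)) :
    IsClosed ((CF (Ω := Ω) b L : StarSubalgebra ℂ (Dis Ω →ᵇ (H →L[ℂ] H))) :
      Set (Dis Ω →ᵇ (H →L[ℂ] H))) := by
  rw [← isSeqClosed_iff_isClosed]
  intro s A hs hlim
  have hpt : ∀ ω : Ω, Tendsto (fun n => (s n : Dis Ω → (H →L[ℂ] H)) ω) atTop
      (𝓝 ((A : Dis Ω → (H →L[ℂ] H)) ω)) := fun ω =>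
    ((continuous_eval_const (ω : Dis Ω)).tendsto A).comp hlim
  refine ⟨fun x y => ?_, fun g ω => ?_⟩
  · refine measurable_of_tendsto_metrizable (fun n => (hs n).1 x y) ?_
    rw [tendsto_pi_nhds]
    intro ω
    have h1 : Continuous (fun C : H →L[ℂ] H => ⟪x, C y⟫_ℂ) :=
      continuous_const.inner (continuous_id.clm_apply continuous_const)
    exact (h1.tendsto _).comp (hpt ω)
  · have h1 := (hpt (g • ω : Ω)).mul_const (L g : H →L[ℂ] H)
    have h2 := (hpt ω).const_mul (L g : H →L[ℂ] H)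
    refine tendsto_nhds_unique h1 (h2.congr fun n => ?_)
    exact ((hs n).2 g ω).symm

noncomputable instance CSF (b : HilbertBasis G ℂ H) (L : G → unitary (H →L[ℂ] H)) :
    CStarAlgebra (CF (Ω := Ω) b L) := StarSubalgebra.cstarAlgebra (CF (Ω := Ω) b L)

/-- the value at `ω` -/
noncomputable def ev (b : HilbertBasis G ℂ H) (L : G → unitary (H →L[ℂ] H)) (ω : Ω) :
    CF (Ω := Ω) b L →⋆ₐ[ℂ] (H →L[ℂ] H) where
  toFun := fun A => ((A : Dis Ω →ᵇ (H →L[ℂ] H)) : Dis Ω → (H →L[ℂ] H)) ω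
  map_one' := rfl
  map_mul' := fun _ _ => rfl
  map_zero' := rfl
  map_add' := fun _ _ => rfl
  commutes' := fun _ => rfl
  map_star' := fun _ => rfl

theorem ev_apply (b : HilbertBasis G ℂ H) (L : G → unitary (H →L[ℂ] H)) (ω : Ω)
    (A : CF (Ω := Ω) b L) :
    ev b L ω A = ((A : Dis Ω →ᵇ (H →L[ℂ] H)) : Dis Ω → (H →L[ℂ] H)) ω := rfl

theorem ev_norm (b : HilbertBasis G ℂ H) (L : G → unitary (H →L[ℂ] H)) (ω : Ω)
    (A : CF (Ω := Ω) b L) : ‖ev b L ω A‖ ≤ ‖A‖ :=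
  (A : Dis Ω →ᵇ (H →L[ℂ] H)).norm_coe_le_norm ω

theorem ev_meas (b : HilbertBasis G ℂ H) (L : G → unitary (H →L[ℂ] H))
    (A : CF (Ω := Ω) b L) (x y : H) : Measurable (fun ω : Ω => ⟪x, ev b L ω A y⟫_ℂ) :=
  A.2.1 x y

theorem ev_cov (b : HilbertBasis G ℂ H) (L : G → unitary (H →L[ℂ] H))
    (A : CF (Ω := Ω) b L) (g : G) (ω : Ω) :
    ev b L (g • ω) A * (L g : H →L[ℂ] H) = (L g : H →L[ℂ] H) * ev b L ω A :=
  A.2.2 g ω

theorem ev_inner_le (b : HilbertBasis G ℂ H) (L : G → unitary (H →L[ℂ] H))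
    (A : CF (Ω := Ω) b L) (x y : H) (ω : Ω) : ‖⟪x, ev b L ω A y⟫_ℂ‖ ≤ ‖x‖ * ‖y‖ * ‖A‖ := by
  have h2 : ‖ev b L ω A‖ ≤ ‖A‖ := ev_norm b L ω A
  calc ‖⟪x, ev b L ω A y⟫_ℂ‖ ≤ ‖x‖ * ‖ev b L ω A y‖ := norm_inner_le_norm _ _
    _ ≤ ‖x‖ * (‖ev b L ω A‖ * ‖y‖) := by
        gcongr
        exact (ev b L ω A).le_opNorm y
    _ ≤ ‖x‖ * (‖A‖ * ‖y‖) := by gcongr
    _ = ‖x‖ * ‖y‖ * ‖A‖ := by ring

theorem ev_int (P : Measure Ω) [IsProbabilityMeasure P] (b : HilbertBasis G ℂ H)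
    (L : G → unitary (H →L[ℂ] H)) (A : CF (Ω := Ω) b L) (x y : H) :
    Integrable (fun ω : Ω => ⟪x, ev b L ω A y⟫_ℂ) P :=
  Integrable.of_bound (ev_meas b L A x y).aestronglyMeasurable (‖x‖ * ‖y‖ * ‖A‖)
    (Eventually.of_forall fun ω => ev_inner_le b L A x y ω)

/-- the trace `τ(A) = ∫ ⟨b 1, A(ω) (b 1)⟩ dP(ω)` -/
noncomputable def tau (P : Measure Ω) [IsProbabilityMeasure P] (b : HilbertBasis G ℂ H)
    (L : G → unitary (H →L[ℂ] H)) : CF (Ω := Ω) b L →L[ℂ] ℂ :=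
  LinearMap.mkContinuous
    { toFun := fun A => ∫ ω, ⟪b 1, ev b L ω A (b 1)⟫_ℂ ∂P
      map_add' := by
        intro A B
        rw [← integral_add (ev_int P b L A _ _) (ev_int P b L B _ _)]
        refine integral_congr_ae (Eventually.of_forall (fun ω => ?_))
        simp only [map_add, _root_.add_apply, inner_add_right]
      map_smul' := by
        intro c A
        rw [RingHom.id_apply, smul_eq_mul, ← integral_const_mul]
        refine integral_congr_ae (Eventually.of_forall (fun ω => ?_))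
        have h : ev b L ω (c • A) = c • ev b L ω A := rfl
        show ⟪b 1, (ev b L ω (c • A)) (b 1)⟫_ℂ = c * ⟪b 1, (ev b L ω A) (b 1)⟫_ℂ
        rw [h, _root_.smul_apply, inner_smul_right] }
    (‖b 1‖ * ‖b 1‖) (by
      intro A
      have h3 := norm_integral_le_of_norm_le_const (μ := P)
        (Eventually.of_forall fun ω => ev_inner_le b L A (b 1) (b 1) ω)
      simpa using h3)

theorem tau_apply (P : Measure Ω) [IsProbabilityMeasure P] (b : HilbertBasis G ℂ H)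
    (L : G → unitary (H →L[ℂ] H)) (A : CF (Ω := Ω) b L) :
    tau P b L A = ∫ ω, ⟪b 1, ev b L ω A (b 1)⟫_ℂ ∂P := rfl

end

/-- measure-preserving ergodic action of `G` -/
structure Erg (G : Type) {Ω : Type} [Group G] [MeasurableSpace Ω] [MulAction G Ω]
    (P : Measure Ω) : Prop where
  mp : ∀ g : G, MeasurePreserving (fun ω : Ω => g • ω) P P
  erg : ∀ B : Set Ω, MeasurableSet B → (∀ g : G, (fun ω : Ω => g • ω) ⁻¹' B = B) →
    P B = 0 ∨ P Bᶜ = 0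

/-- the field `X = a · U_g`: `(X ω f)(i) = a (i⁻¹ ω) f(i g)`, on the basis `b k ↦ a(g k⁻¹ ω) b(k g⁻¹)` -/
def IsW {G Ω H : Type} [Group G] [MulAction G Ω] [NormedAddCommGroup H] [InnerProductSpace ℂ H]
    (b : HilbertBasis G ℂ H) (g : G) (a : Ω → ℂ) (X : Ω → (H →L[ℂ] H)) : Prop :=
  ∀ (ω : Ω) (k : G), X ω (b k) = a ((g * k⁻¹) • ω) • b (k * g⁻¹)

/-- nontrivial closed hyperinvariant subspace -/
def HasHyp {H : Type} [NormedAddCommGroup H] [NormedSpace ℂ H] (T : H →L[ℂ] H) : Prop :=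
  ∃ V : Submodule ℂ H, IsClosed (V : Set H) ∧ V ≠ ⊥ ∧ V ≠ ⊤ ∧
    ∀ R : H →L[ℂ] H, R * T = T * R → ∀ x ∈ V, R x ∈ V

end Pool.Agent.W611.RO
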