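import Pool.Agent.W611.RO.Stms
import Pool.Agent.W253.RO.MainB

/-!
Project RO: existence of the operators on the space of square summable functions.
-/

set_option autoImplicit false
open scoped ComplexConjugate InnerProductSpace Topology
open Filter MeasureTheory NormedSpace

namespace Pool.Agent.W611.RO
open Pool.Agent.W253.RO

/-- the Hilbert space of square summable functions on `G` -/
abbrev L2 (G : Type) : Type := lp (fun _ : G => ℂ) 2

/-- the standard basis -/
noncomputable def stb (G : Type) : HilbertBasis G ℂ (L2 G) :=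
  HilbertBasis.ofRepr (LinearIsometryEquiv.refl ℂ (L2 G))

theorem stb_coord (G : Type) (f : L2 G) (i : G) : ⟪stb G i, f⟫_ℂ = (f : G → ℂ) i := by
  have h := (stb G).repr_apply_apply f i
  rw [← h]
  rfl

theorem stb_apply (G : Type) [DecidableEq G] (k i : G) :
    ((stb G k : L2 G) : G → ℂ) i = if i = k then 1 else 0 := by
  rw [← stb_coord]
  rw [orthonormal_iff_ite.1 (stb G).orthonormal i k]

/-- coordinates are continuous linear functionals -/
noncomputable def crd {G : Type} (i : G) : L2 G →L[ℂ] ℂ := innerSL ℂ (stb G i)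

theorem crd_apply {G : Type} (i : G) (f : L2 G) : crd i f = (f : G → ℂ) i := by
  rw [← stb_coord]
  rfl

theorem exists_one (hUNI : P_UNI) {G : Type} [Group G] (g : G) (m : G → ℂ) (R : ℝ) (hR : 0 ≤ R)
    (hm : ∀ i, ‖m i‖ ≤ R) : ∃ X : L2 G →L[ℂ] L2 G, ‖X‖ ≤ R ∧
      ∀ (f : L2 G) (i : G), (X f : G → ℂ) i = m i * (f : G → ℂ) (i * g) := by
  classical
  obtain ⟨X, hX, hXk⟩ := (hUNI G (L2 G) (stb G) (Equiv.mulRight g⁻¹)
    (fun k => m (k * g⁻¹))).2 R hR (fun k => hm _)
  refine ⟨X, hX, fun f i => ?_⟩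
  have h1 : (crd i).comp X = m i • crd (i * g) := by
    have hd : (Submodule.span ℂ (Set.range (stb G))).topologicalClosure = ⊤ := (stb G).dense_span
    have hd' : Dense ((Submodule.span ℂ (Set.range (stb G)) : Submodule ℂ (L2 G)) : Set (L2 G)) := by
      rw [← Submodule.dense_iff_topologicalClosure_eq_top] at hd
      exact hd
    refine ContinuousLinearMap.ext_on (s := Set.range (stb G)) hd' ?_
    rintro _ ⟨k, rfl⟩
    have hk : X (stb G k) = m (k * g⁻¹) • stb G (k * g⁻¹) := hXk k
    rw [ContinuousLinearMap.comp_apply, hk, map_smul, _root_.smul_apply, crd_apply,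
      crd_apply, stb_apply, stb_apply]
    simp only [smul_eq_mul]
    by_cases h : i * g = k
    · have h' : i = k * g⁻¹ := by rw [← h]; group
      rw [if_pos h', if_pos h, h']
    · have h' : i ≠ k * g⁻¹ := by
        rintro rfl
        apply h
        group
      rw [if_neg h', if_neg h]
      simp
  have h2 := congrArg (fun Z : L2 G →L[ℂ] ℂ => Z f) h1
  simp only [ContinuousLinearMap.comp_apply, _root_.smul_apply, crd_apply, smul_eq_mul] at h2
  exact h2

theorem exists_op (hUNI : P_UNI) {G : Type} [Group G] (m : G → G → ℂ) (R : G → ℝ)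
    (hR0 : ∀ g, 0 ≤ R g) (hR : Summable R) (hm : ∀ g i, ‖m g i‖ ≤ R g) :
    ∃ X : L2 G →L[ℂ] L2 G,
      ∀ (f : L2 G) (i : G), (X f : G → ℂ) i = ∑' g, m g i * (f : G → ℂ) (i * g) := by
  choose X hX hXf using fun g => exists_one hUNI g (m g) (R g) (hR0 g) (hm g)
  have hs : Summable X := Summable.of_norm_bounded hR hX
  refine ⟨∑' g, X g, fun f i => ?_⟩
  have h1 : HasSum (fun g => X g f) ((∑' g, X g) f) :=
    hs.hasSum.mapL (ContinuousLinearMap.apply ℂ (L2 G) f)
  have h2 : HasSum (fun g => crd i (X g f)) (crd i ((∑' g, X g) f)) := h1.mapL (crd i)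
  simp only [crd_apply, hXf] at h2
  exact h2.tsum_eq.symm

end Pool.Agent.W611.RO
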