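import Pool.Agent.W611.RO.MainC
import Pool.Agent.W611.RO.Exist
import Pool.Agent.W883.RO.TR
import Pool.Agent.W540.RO.N2
import Pool.Agent.W545.RO.Erg
import Pool.Agent.W338.RO.Abs
import Pool.Agent.W636.RO.M1
import Pool.Agent.W405.RO.M2
import Pool.Agent.W515.RO.Uni
import Pool.Agent.W721.RO.WRD
import Pool.Agent.W135.RO.Rot
import Pool.Agent.W493.RO.Lead
import Pool.Agent.W253.RO.Det

/-!
Project RO: assembly.
-/

set_option autoImplicit false
open scoped ComplexConjugate InnerProductSpace Topology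
open Filter MeasureTheory NormedSpace

namespace Pool.Agent.W611.RO

theorem t_UNI' : P_UNI := Pool.Agent.W515.RO.t_UNI

theorem t_DET' : P_DET :=
  Pool.Agent.W253.RO.t_DET Pool.Agent.W611.RO.t_TR
    (Pool.Agent.W116.RO.Mono.t_MONO Pool.Agent.W636.RO.t_M1 Pool.Agent.W405.RO.t_M2)
    (Pool.Agent.W135.RO.Rot.t_ROT t_UNI') Pool.Agent.W493.RO.Lead.t_LEAD

theorem final (G Ω : Type) [Group G] [Countable G] [MeasurableSpace Ω] [MulAction G Ω]
    (P : Measure Ω) [IsProbabilityMeasure P] (herg : Erg G P)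
    (χ : G → ℤ) (hχ : ∀ g h, χ (g * h) = χ g + χ h) (a : G → Ω → ℂ) (g₀ : G) (R : G → ℝ)
    (hR : Summable R) (ham : ∀ g, Measurable (a g)) (haR : ∀ g ω, ‖a g ω‖ ≤ R g)
    (hpos : 0 < χ g₀) (hlt : ∀ g, g ≠ g₀ → χ g < χ g₀ ∨ ∀ ω, a g ω = 0)
    (hane : ∀ᵐ ω ∂P, a g₀ ω ≠ 0) (haint : Integrable (fun ω => Real.log ‖a g₀ ω‖) P)
    (T : Ω → (L2 G →L[ℂ] L2 G))
    (hT : ∀ (ω : Ω) (f : L2 G) (i : G), (T ω f : G → ℂ) i
      = ∑' g, a g (i⁻¹ • ω) * (f : G → ℂ) (i * g)) :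
    ∀ᵐ ω ∂P, HasHyp (T ω) := by
  classical
  have hR0 : ∀ ω : Ω, ∀ g, 0 ≤ R g := fun ω g => (norm_nonneg _).trans (haR g ω)
  refine t_MAINC Pool.Agent.W611.RO.t_TR Pool.Agent.W540.RO.t_N2 Pool.Agent.W545.RO.t_ERG
    Pool.Agent.W338.RO.t_ABS t_UNI' (Pool.Agent.W721.RO.t_WRD t_UNI') t_DET' G Ω (L2 G) P (stb G)
    herg χ hχ a g₀ R hR ham haR hpos hlt hane haint T ?_
  intro ω k
  have hs : Summable (fun g => a g ((g * k⁻¹) • ω) • stb G (k * g⁻¹)) := by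
    refine Summable.of_norm_bounded (g := R) hR fun g => ?_
    rw [norm_smul]
    have : ‖stb G (k * g⁻¹)‖ = 1 := (stb G).orthonormal.1 _
    rw [this, mul_one]
    exact haR g _
  apply lp.ext
  funext i
  rw [hT]
  have h1 : HasSum (fun g => crd i (a g ((g * k⁻¹) • ω) • stb G (k * g⁻¹)))
      (crd i (∑' g, a g ((g * k⁻¹) • ω) • stb G (k * g⁻¹))) := hs.hasSum.mapL (crd i)
  rw [crd_apply] at h1
  rw [← h1.tsum_eq]
  refine tsum_congr fun g => ?_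
  rw [map_smul, crd_apply, stb_apply, stb_apply, smul_eq_mul]
  by_cases h : i * g = k
  · have h' : i = k * g⁻¹ := by rw [← h]; group
    have e2 : g * k⁻¹ = i⁻¹ := by rw [h']; group
    rw [if_pos h', if_pos h, e2]
  · have h' : i ≠ k * g⁻¹ := by
      rintro rfl
      apply h
      group
    rw [if_neg h', if_neg h]
    simp

/-- existence of the operators -/
theorem exists_family (G Ω : Type) [Group G] [MeasurableSpace Ω] [MulAction G Ω]
    (a : G → Ω → ℂ) (R : G → ℝ) (hR : Summable R) (haR : ∀ g ω, ‖a g ω‖ ≤ R g) :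
    ∃ T : Ω → (L2 G →L[ℂ] L2 G), ∀ (ω : Ω) (f : L2 G) (i : G), (T ω f : G → ℂ) i
      = ∑' g, a g (i⁻¹ • ω) * (f : G → ℂ) (i * g) := by
  choose T hT using fun ω : Ω => exists_op t_UNI' (fun g i => a g (i⁻¹ • ω)) R
    (fun g => (norm_nonneg _).trans (haR g ω)) hR (fun g i => haR g _)
  exact ⟨T, hT⟩

end Pool.Agent.W611.RO
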