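import Pool.Agent.W611.RO.Stms
import Pool.Agent.W253.RO.MainB
import Pool.Agent.W116.RO.Mono

/-!
Project RO: absolutely summable families (a norm limit of the families of finite range).
-/

set_option autoImplicit false
open scoped ComplexConjugate InnerProductSpace Topology
open Filter MeasureTheory NormedSpace

namespace Pool.Agent.W611.RO
open Pool.Agent.H712R5.BO Pool.Agent.W253.RO

section cont
variable {A : Type} [CStarAlgebra A]

theorem tendsto_logdet (τ : A →L[ℂ] ℂ) {ι : Type} {l : Filter ι} (S : ι → A) (T : A)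
    (h : Tendsto S l (𝓝 T)) (δ : ℝ) (hδ : 0 < δ) :
    Tendsto (fun n => (τ (CFC.log (algebraMap ℝ A δ + star (S n) * S n))).re) l
      (𝓝 (τ (CFC.log (algebraMap ℝ A δ + star T * T))).re) := by
  set M : ℝ := ‖algebraMap ℝ A δ + star T * T‖ + 1 with hM
  have hlim : Tendsto (fun n => algebraMap ℝ A δ + star (S n) * S n) l
      (𝓝 (algebraMap ℝ A δ + star T * T)) :=
    tendsto_const_nhds.add ((h.star).mul h)
  have hsub : ∀ X : A, ‖algebraMap ℝ A δ + star X * X‖ ≤ M →
      spectrum ℝ (algebraMap ℝ A δ + star X * X) ⊆ Set.Icc δ M := by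
    intro X hX x hx
    refine ⟨Pool.Agent.W116.RO.Mono.spec δ X hx, ?_⟩
    have h1 : ‖x‖ ≤ ‖algebraMap ℝ A δ + star X * X‖ * ‖(1 : A)‖ :=
      spectrum.norm_le_norm_mul_of_mem hx
    have h3 : ‖(1 : A)‖ ≤ 1 := by
      rcases subsingleton_or_nontrivial A with hs | hs
      · rw [Subsingleton.elim (1 : A) 0, norm_zero]; exact zero_le_one
      · rw [CStarRing.norm_one]
    have h2 : x ≤ ‖x‖ := Real.le_norm_self x
    nlinarith [norm_nonneg (algebraMap ℝ A δ + star X * X)]
  have hev : ∀ᶠ n in l, ‖algebraMap ℝ A δ + star (S n) * S n‖ ≤ M := by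
    have := hlim.norm
    have h4 := this.eventually (gt_mem_nhds (show ‖algebraMap ℝ A δ + star T * T‖ < M by
      rw [hM]; linarith))
    filter_upwards [h4] with n hn using le_of_lt hn
  have hc : Tendsto (fun n => CFC.log (algebraMap ℝ A δ + star (S n) * S n)) l
      (𝓝 (CFC.log (algebraMap ℝ A δ + star T * T))) := by
    unfold CFC.log
    refine Filter.Tendsto.cfc (s := Set.Icc δ M) isCompact_Icc Real.log hlim ?_ ?_ ?_ ?_ ?_
    · filter_upwards [hev] with n hn using hsub (S n) hn
    · exact Eventually.of_forall fun n => Pool.Agent.W116.RO.Mono.sa δ (S n)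
    · exact hsub T (by rw [hM]; linarith)
    · exact Pool.Agent.W116.RO.Mono.sa δ T
    · refine Real.continuousOn_log.mono fun x hx => ?_
      have : 0 < x := lt_of_lt_of_le hδ hx.1
      exact this.ne'
  exact (Complex.continuous_re.tendsto _).comp ((τ.continuous.tendsto _).comp hc)

end cont

/-- norm of a weighted permutation field -/
theorem norm_isW (hUNI : P_UNI) {G Ω H : Type} [Group G] [Countable G] [MeasurableSpace Ω]
    [MulAction G Ω] [NormedAddCommGroup H] [InnerProductSpace ℂ H] [CompleteSpace H]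
    (b : HilbertBasis G ℂ H) (L : G → unitary (H →L[ℂ] H)) (g : G) (a : Ω → ℂ) (R : ℝ)
    (hR : 0 ≤ R) (ha : ∀ ω, ‖a ω‖ ≤ R) (X : CF (Ω := Ω) b L)
    (hX : IsW b g a (fun ω => ev b L ω X)) : ‖X‖ ≤ R := by
  have h1 : ∀ ω : Ω, ‖ev b L ω X‖ ≤ R := by
    intro ω
    obtain ⟨Y, hY, hYk⟩ := (hUNI G H b (Equiv.mulRight g⁻¹) (fun k => a ((g * k⁻¹) • ω))).2 R hR
      (fun k => ha _)
    have : ev b L ω X = Y := by
      refine clm_ext b _ _ fun k => ?_
      rw [hYk k]
      exact hX ω k
    rw [this]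
    exact hY
  exact (BoundedContinuousFunction.norm_le hR).2 h1

/-- the theorem for absolutely summable families, in terms of a Hilbert basis -/
theorem t_MAINC (hTR : P_TR) (hN2 : P_N2) (hERG : P_ERG) (hABS : P_ABS) (hUNI : P_UNI)
    (hWRD : P_WRD) (hDET : P_DET) (G Ω H : Type) [Group G] [Countable G] [MeasurableSpace Ω]
    [MulAction G Ω] [NormedAddCommGroup H] [InnerProductSpace ℂ H] [CompleteSpace H]
    (P : Measure Ω) [IsProbabilityMeasure P] (b : HilbertBasis G ℂ H) (herg : Erg G P)
    (χ : G → ℤ) (hχ : ∀ g h, χ (g * h) = χ g + χ h) (a : G → Ω → ℂ) (g₀ : G) (R : G → ℝ)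
    (hR : Summable R) (ham : ∀ g, Measurable (a g)) (haR : ∀ g ω, ‖a g ω‖ ≤ R g)
    (hpos : 0 < χ g₀) (hlt : ∀ g, g ≠ g₀ → χ g < χ g₀ ∨ ∀ ω, a g ω = 0)
    (hane : ∀ᵐ ω ∂P, a g₀ ω ≠ 0) (haint : Integrable (fun ω => Real.log ‖a g₀ ω‖) P)
    (T : Ω → (H →L[ℂ] H))
    (hT : ∀ (ω : Ω) (k : G), T ω (b k) = ∑' g, a g ((g * k⁻¹) • ω) • b (k * g⁻¹)) :
    ∀ᵐ ω ∂P, HasHyp (T ω) := by
  classical
  have hR0 : ∀ g, 0 ≤ R g := by
    intro g
    haveI : Nonempty Ω := by
      by_contra hc
      rw [not_nonempty_iff] at hc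
      have : P Set.univ = 0 := by
        rw [Set.eq_empty_of_isEmpty (Set.univ : Set Ω)]; exact measure_empty
      rw [measure_univ] at this
      exact one_ne_zero this
    exact (norm_nonneg _).trans (haR g (Classical.arbitrary Ω))
  -- the left regular representation
  have hL' : ∀ h : G, ∃ U : unitary (H →L[ℂ] H), ∀ k, (U : H →L[ℂ] H) (b k) = b (h * k) := by
    intro h
    obtain ⟨U, hU⟩ := (hUNI G H b (Equiv.mulLeft h) (fun _ => 1)).1 (by simp)
    refine ⟨U, fun k => ?_⟩
    rw [hU k, one_smul]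
    rfl
  choose L hLk using hL'
  have hL : Reg b L := hLk
  set κ : ℝ := ∫ ω, Real.log ‖a g₀ ω‖ ∂P with hκ
  set e : ℂ := ((Real.exp (-κ) : ℝ) : ℂ) with he
  have he0 : e ≠ 0 := by
    rw [he]
    exact_mod_cast (Real.exp_pos _).ne'
  have hen : ‖e‖ = Real.exp (-κ) := by
    rw [he, Complex.norm_real, Real.norm_eq_abs, Real.abs_exp]
  -- the words
  have hX' : ∀ g : G, ∃ X : CF (Ω := Ω) b L, IsW b g (fun ω => e * a g ω) (fun ω => ev b L ω X) := by
    intro g
    obtain ⟨X, hX⟩ := hWRD G Ω H b L hL (fun h => (herg.mp h).measurable) g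
        (fun ω => e * a g ω) (Real.exp (-κ) * R g) ((ham g).const_mul e) (fun ω => by
          rw [norm_mul, hen]
          exact mul_le_mul_of_nonneg_left (haR g ω) (Real.exp_pos _).le)
    exact ⟨X, hX⟩
  choose X hX using hX'
  have hXn : ∀ g, ‖X g‖ ≤ Real.exp (-κ) * R g := by
    intro g
    refine norm_isW hUNI b L g (fun ω => e * a g ω) _ (mul_nonneg (Real.exp_pos _).le (hR0 g))
      (fun ω => ?_) (X g) (hX g)
    rw [norm_mul, hen]
    exact mul_le_mul_of_nonneg_left (haR g ω) (Real.exp_pos _).le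
  have hXs : Summable X := by
    refine Summable.of_norm_bounded (hR.mul_left (Real.exp (-κ))) hXn
  set T' : CF (Ω := Ω) b L := ∑' g, X g with hT'
  have hsum : HasSum X T' := hXs.hasSum
  have hev : ∀ ω, ev b L ω T' = e • T ω := by
    intro ω
    have hcont : Continuous (ev b L ω) := by
      refine AddMonoidHomClass.continuous_of_bound (ev b L ω) 1 fun A => ?_
      rw [one_mul]
      exact ev_norm b L ω A
    have h1 : HasSum (fun g => ev b L ω (X g)) (ev b L ω T') :=
      hsum.map (ev b L ω) hcont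
    refine clm_ext b _ _ fun k => ?_
    have h2 : HasSum (fun g => ev b L ω (X g) (b k)) (ev b L ω T' (b k)) := by
      have h3 := h1.mapL (ContinuousLinearMap.apply ℂ H (b k))
      exact h3
    have h4 : ∀ g, ev b L ω (X g) (b k) = e • (a g ((g * k⁻¹) • ω) • b (k * g⁻¹)) := by
      intro g
      have := hX g ω k
      simp only at this
      rw [this, smul_smul]
    simp_rw [h4] at h2
    have h5 : HasSum (fun g => a g ((g * k⁻¹) • ω) • b (k * g⁻¹)) (T ω (b k)) := by
      rw [hT]
      refine Summable.hasSum ?_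
      refine Summable.of_norm_bounded (g := R) hR fun g => ?_
      rw [norm_smul]
      have : ‖b (k * g⁻¹)‖ = 1 := b.orthonormal.1 _
      rw [this, mul_one]
      exact haR g _
    have h6 := h5.const_smul e
    exact (h2.unique h6)
  have hmain := hABS Ω P G H (CF (Ω := Ω) b L) (tau P b L) (fun ω => ev b L ω) (fun k => b k) (b 1)
    (hTR G Ω H P b L hL herg.mp) (b.orthonormal.1 1) (total b)
    (fun A => (hN2 G Ω H P b L hL herg.mp A).1)
    (fun A => ⟨ev_int P b L A _ _, tau_apply P b L A⟩)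
    (fun A k => ⟨((hN2 G Ω H P b L hL herg.mp A).2 k).1,
      ((hN2 G Ω H P b L hL herg.mp A).2 k).2.le⟩)
    (fun B R hB => hERG G Ω H P b L hL herg B R hB) T' ?_
  · filter_upwards [hmain] with ω hω
    rw [hev ω] at hω
    exact hasHyp_of_smul _ _ hω
  · intro k δ _ hδ
    have hlog : ∀ᵐ ω ∂P, Real.log ‖e * a g₀ ω‖ = -κ + Real.log ‖a g₀ ω‖ := by
      filter_upwards [hane] with ω hω
      rw [norm_mul, hen, Real.log_mul (Real.exp_pos _).ne' (norm_ne_zero_iff.2 hω), Real.log_exp]
    have h2 : ∫ ω, Real.log ‖e * a g₀ ω‖ ∂P = 0 := by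
      rw [integral_congr_ae hlog, integral_add (integrable_const _) haint, integral_const]
      simp [hκ]
    -- finite subfamilies
    have hfin : ∀ F : Finset G, g₀ ∈ F → 0 ≤ (tau P b L (CFC.log (algebraMap ℝ (CF (Ω := Ω) b L) δ
      + star ((∑ g ∈ F, X g - tau P b L T' • (1 : CF (Ω := Ω) b L)) ^ k)
        * (∑ g ∈ F, X g - tau P b L T' • (1 : CF (Ω := Ω) b L)) ^ k))).re := by
      intro F hF
      set F' : Finset G := F.filter (fun g => g = g₀ ∨ χ g < χ g₀) with hF'
      have hsumF : ∑ g ∈ F, X g = ∑ g ∈ F', X g := by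
        rw [hF', Finset.sum_filter]
        refine Finset.sum_congr rfl fun g _ => ?_
        by_cases hg : g = g₀ ∨ χ g < χ g₀
        · rw [if_pos hg]
        · rw [if_neg hg]
          push Not at hg
          have hz : ∀ ω, a g ω = 0 := by
            rcases hlt g hg.1 with h | h
            · exact absurd h (not_lt.2 hg.2)
            · exact h
          have hle : ‖X g‖ ≤ 0 := norm_isW hUNI b L g (fun ω => e * a g ω) 0 le_rfl
            (fun ω => by simp [hz ω]) (X g) (hX g)
          exact norm_le_zero_iff.1 hle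
      rw [hsumF]
      have h1 := hDET G Ω H P b L hL herg.mp χ hχ F' (fun g ω => e * a g ω) g₀
        (by rw [hF', Finset.mem_filter]; exact ⟨hF, Or.inl rfl⟩) hpos (by
          intro g hg hgne
          rw [hF', Finset.mem_filter] at hg
          rcases hg.2 with h | h
          · exact absurd h hgne
          · exact h) X
        (fun g _ => hX g) ((ham g₀).const_mul e) (by
          filter_upwards [hane] with ω hω
          exact mul_ne_zero he0 hω) (by
          refine Integrable.congr ((integrable_const (-κ)).add haint) ?_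
          filter_upwards [hlog] with ω hω
          simp only [Pi.add_apply]
          rw [hω]) (tau P b L T') k δ hδ
      refine le_trans (le_of_eq ?_) h1
      rw [h2, mul_zero]
    have hlim : Tendsto (fun F : Finset G =>
        (∑ g ∈ F, X g - tau P b L T' • (1 : CF (Ω := Ω) b L)) ^ k) atTop
        (𝓝 ((T' - tau P b L T' • (1 : CF (Ω := Ω) b L)) ^ k)) := by
      have h3 : Tendsto (fun F : Finset G => ∑ g ∈ F, X g) atTop (𝓝 T') := hsum
      exact (h3.sub_const _).pow k
    have hlim2 := tendsto_logdet (tau P b L) _ _ hlim δ hδ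
    refine ge_of_tendsto hlim2 ?_
    filter_upwards [eventually_ge_atTop ({g₀} : Finset G)] with F hF
    exact hfin F (hF (Finset.mem_singleton_self g₀))

end Pool.Agent.W611.RO
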